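import Pool.Agent.V5helper99.OX.Fin
import Pool.Agent.Y989.FR.All

/-!
# Accessible vertices of critical clusters: box counts, with probability close to one

Critical bond percolation on `ℤ²` in the box `Λ_n = {0, …, n}²`: `F` is the set of open edges,
uniformly distributed on the subsets of `edges n` (`Plain.prob`), `Plain.box n` is the set of the
vertices, `Plain.cluster F v` the cluster of `v`, and `Plain.Largest n F v` says that this cluster
has the largest Euclidean diameter.  These definitions are those of the starting files (in
`Pool/Agent/H342R2/Per/Plain.lean`), and `Accessible` is the notion of the starting file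
`Pool/Agent/Results/MP_6bd702_pr/AccessibleVerticesOrder.lean`, which proves the upper bound for the
number of the accessible vertices of the largest cluster with probability close to one, and the
lower bounds with *some positive* probability.

Here both bounds are proved with probability close to one, for the numbers of squares of side `m`
which contain accessible vertices, for all scales `1 ≤ m ≤ n` (`m = 1` gives the number of the
accessible vertices), and not only for the largest cluster but for all the clusters of diameter at
least `η n` together.  In particular the number of the accessible vertices of the largest cluster is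
`n ^ (4/3 + o(1))` with probability tending to one.

Outline of the lower bound.  In a box of size `a` one finds with a probability bounded below a set
`V` of about `a ^ (4/3)` vertices of one cluster of the box, with at most `C (a m) ^ (4/3)` pairs at
distance at most `m`, and lattice paths from near each of them to a mouth on the boundary of the box
which avoid this cluster (first and second moments, with the bounds of the starting library for the
probabilities of three arms).  For the highest leftmost vertex `v` of a cluster the upper boundary is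
explored along a strand, in dyadic windows below `v`; in each window the cluster of such a box is
docked to the strand with a conditional probability bounded below (`Pool.Agent.V5helper99.OX`, a
general form for any event of one box of the method of the hand-in `OuterBoundaryDimension`).  So all
windows fail with an exponentially small probability, and the expected number of large clusters is
bounded.  The upper bound is the first moment for three arms in annuli.

Parts: general windows, passage to accessible vertices and squares, upper bound by helper99; counting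
lemmas, assembly by helper9, helper90; events in one box by helper72; on the base of the starting
files.
-/

set_option autoImplicit false

namespace Pool.Agent.Results.MP_6bd702_pr.AccessibleBoxCounts

open H342P

/-- The square lattice without the vertices of the set `C`: nearest neighbours, both outside `C`. -/
def avoidGraph (C : Set (ℤ × ℤ)) : SimpleGraph (ℤ × ℤ) :=
  SimpleGraph.fromRel (fun u w => (∃ e : Plain.Edge, Plain.fst e = u ∧ Plain.snd e = w) ∧
    u ∉ C ∧ w ∉ C)

/-- The vertex `w` of the cluster `C` of `v` is accessible: some lattice neighbour `p` of `w` is not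
in `C` and is joined to a vertex `q` outside `Λ_n` by a lattice path (through open or closed edges)
which avoids `C`. -/
def Accessible (n : ℕ) (F : Finset Plain.Edge) (v w : ℤ × ℤ) : Prop :=
  w ∈ Plain.cluster F v ∧ ∃ (e : Plain.Edge) (p q : ℤ × ℤ),
    ((Plain.fst e = w ∧ Plain.snd e = p) ∨ (Plain.fst e = p ∧ Plain.snd e = w)) ∧
    p ∉ Plain.cluster F v ∧ q ∉ Plain.box n ∧ (avoidGraph (Plain.cluster F v)).Reachable p q

open Classical in
/-- The set of the accessible vertices of the cluster of `v` in `Λ_n`. -/
noncomputable def accessible (n : ℕ) (F : Finset Plain.Edge) (v : ℤ × ℤ) : Finset (ℤ × ℤ) :=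
  (Plain.box n).filter (fun w => Accessible n F v w)

/-- The number of the squares `[m i, m (i + 1)) × [m j, m (j + 1))` which contain accessible vertices
of the cluster of `v`. -/
noncomputable def squares (n m : ℕ) (F : Finset Plain.Edge) (v : ℤ × ℤ) : ℕ :=
  ((accessible n F v).image (fun w => (w.1 / (m : ℤ), w.2 / (m : ℤ)))).card

/-- The Euclidean diameter of the cluster of the vertex `v` of `Λ_n` is at least `η n`. -/
def Macroscopic (n : ℕ) (η : ℝ) (F : Finset Plain.Edge) (v : ℤ × ℤ) : Prop :=
  v ∈ Plain.box n ∧ ∃ a ∈ Plain.cluster F v, ∃ b ∈ Plain.cluster F v,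
    (η * n) ^ 2 ≤ (Plain.sqDist a b : ℝ)

/-- For all `δ, η > 0` there are `c, K > 0` and `n₀` such that, for all `n ≥ n₀` and `1 ≤ m ≤ n`,
with probability at least `1 - δ`, for every cluster of `Λ_n` of largest Euclidean diameter and for
every cluster of `Λ_n` of Euclidean diameter at least `η n`, the number of the squares of side `m`
which contain accessible vertices is between `c (n / m) ^ (4/3)` and `K (n / m) ^ (4/3)`. -/
theorem result : ∀ δ η : ℝ, 0 < δ → 0 < η → ∃ (c K : ℝ) (n₀ : ℕ), 0 < c ∧ 0 < K ∧
    ∀ n : ℕ, n₀ ≤ n → ∀ m : ℕ, 1 ≤ m → m ≤ n →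
      1 - δ ≤ Plain.prob n (fun F => ∀ v, (Plain.Largest n F v ∨ Macroscopic n η F v) →
        c * ((n : ℝ) / m) ^ (4 / 3 : ℝ) ≤ (squares n m F v : ℝ) ∧
        (squares n m F v : ℝ) ≤ K * ((n : ℝ) / m) ^ (4 / 3 : ℝ)) := by
  have hA : Pool.Agent.Y989.FR.S_ACC := Pool.Agent.Y989.FR.ACC.t_ACC Pool.Agent.Y989.FR.a_L3
  have hT : Pool.Agent.Y989.FR.S_THK :=
    Pool.Agent.Y989.FR.a_THK Pool.Agent.Y989.FR.a_JR Pool.Agent.Y989.FR.a_U3
  have hU : Pool.Agent.Y989.FR.S_U3 := Pool.Agent.Y989.FR.a_U3
  intro δ η hδ hη
  obtain ⟨η1, n1, hη1, hl⟩ := Pool.Agent.V5helper99.OX.largest_lg (show 0 < δ / 2 by positivity)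
  obtain ⟨c, K, n0, hc, hK, h⟩ := Pool.Agent.V5helper99.OX.bad_le hA hT hU
    (show 0 < δ / 2 by positivity) (show 0 < min η1 (η / 2) from lt_min hη1 (by positivity))
  refine ⟨c, K, max n0 n1, hc, hK, fun n hn m hm hmn => ?_⟩
  rw [max_le_iff] at hn
  have h1 := h n hn.1 m hm hmn
  have hl1 := hl n hn.2
  have h2 := Plain.prob_not n (fun F => ∀ v, (Plain.Largest n F v ∨ Macroscopic n η F v) →
        c * ((n : ℝ) / m) ^ (4 / 3 : ℝ) ≤ (squares n m F v : ℝ) ∧
        (squares n m F v : ℝ) ≤ K * ((n : ℝ) / m) ^ (4 / 3 : ℝ))
  have h3 : Plain.prob n (fun F => ¬ ∀ v, (Plain.Largest n F v ∨ Macroscopic n η F v) →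
        c * ((n : ℝ) / m) ^ (4 / 3 : ℝ) ≤ (squares n m F v : ℝ) ∧
        (squares n m F v : ℝ) ≤ K * ((n : ℝ) / m) ^ (4 / 3 : ℝ)) ≤ δ := by
    refine le_trans (le_trans (Pool.Agent.V5helper99.OX.prob_mono ?_)
      (Pool.Agent.V5helper99.OX.prob_or n
        (fun F => ∃ v, Plain.Largest n F v ∧ ¬ Pool.Agent.V5helper99.OX.Lg n η1 F v)
        (fun F => ∃ v, Pool.Agent.V5helper99.OX.Lg n (min η1 (η / 2)) F v ∧
          ¬ (c * ((n : ℝ) / m) ^ (4 / 3 : ℝ) ≤ (Pool.Agent.V5helper99.OX.sqs n m F v : ℝ) ∧
        (Pool.Agent.V5helper99.OX.sqs n m F v : ℝ) ≤ K * ((n : ℝ) / m) ^ (4 / 3 : ℝ))))) ?_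
    · intro F _ hcon
      rw [not_forall] at hcon
      obtain ⟨v, hv⟩ := hcon
      rw [Classical.not_imp] at hv
      obtain ⟨hv1, hv2⟩ := hv
      have hlift : ∀ η' : ℝ, min η1 (η / 2) ≤ η' → Pool.Agent.V5helper99.OX.Lg n η' F v →
          Pool.Agent.V5helper99.OX.Lg n (min η1 (η / 2)) F v := by
        rintro η' hη' ⟨hvb, a, ha, b, hb, hab⟩
        exact ⟨hvb, a, ha, b, hb, (mul_le_mul_of_nonneg_right hη' (Nat.cast_nonneg _)).trans hab⟩
      rcases hv1 with hv1 | ⟨hv1, a, ha, b, hb, hab⟩
      · by_cases hlg : Pool.Agent.V5helper99.OX.Lg n η1 F v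
        · exact Or.inr ⟨v, hlift η1 (min_le_left _ _) hlg, hv2⟩
        · exact Or.inl ⟨v, hv1, hlg⟩
      · right
        refine ⟨v, hlift (η / 2) (min_le_right _ _) ⟨hv1, a, ha, b, hb, ?_⟩, hv2⟩
        have h4 : (Plain.sqDist a b : ℝ) ≤ 2 * ((H984N.sd a b : ℤ) : ℝ) ^ 2 := by
          have h5 : Plain.sqDist a b ≤ 2 * (H984N.sd a b) ^ 2 := by
            have h6 := (Pool.Agent.V5helper99.OB.sd_le_iff (u := a) (v := b)).1 le_rfl
            have h7 := pow_le_pow_left₀ (abs_nonneg _) h6.1 2
            have h8 := pow_le_pow_left₀ (abs_nonneg _) h6.2 2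
            rw [sq_abs] at h7 h8
            unfold Plain.sqDist
            linarith
          exact_mod_cast h5
        have h9 : (0:ℝ) ≤ ((H984N.sd a b : ℤ) : ℝ) := by
          exact_mod_cast Pool.Agent.V5helper99.OB.sd_nonneg a b
        have h11 : (η / 2 * n) ^ 2 ≤ ((H984N.sd a b : ℤ) : ℝ) ^ 2 := by
          have : (η / 2 * n) ^ 2 = (η * n) ^ 2 / 4 := by ring
          rw [this]
          have h12 := sq_nonneg (η * (n : ℝ))
          linarith
        exact (pow_le_pow_iff_left₀ (by positivity) h9 two_ne_zero).1 h11
    · linarith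
  linarith

end Pool.Agent.Results.MP_6bd702_pr.AccessibleBoxCounts
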