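import Pool.Agent.V5helper90.LU.Main

/-!
# Intersections of the outer boundary of the scaling limits with fixed sets

Critical bond percolation on `ℤ²` in the box `Λ_n = {0, …, n}²`. The definitions (`edges`, `Largest`,
`outerBoundary`, `Curve`, `lawOf`) are those of the starting file
`Pool/Agent/Results/MP_6bd702_pr/LimitCurves.lean`.

Let `μ` be a weak limit, along any sequence of scales, of the laws of the closed lattice paths which
trace the outer boundary of the largest cluster. For every fixed set `T` in the plane, almost surely
the union of the outer boundary of the limit curve and of the boundaries of all components of its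
complement meets `T`, inside the open unit square, in a set of dimension at most `dim T - 2 / 3`, and
it does not meet `T` there at all if `T` has measure zero for the Hausdorff measure of dimension `2 / 3`.
For instance it does not contain a given point, its intersection with a given smooth curve has
dimension at most `1 / 3`, and it avoids a given Cantor set of dimension smaller than `2 / 3`.

Proof: a point of these boundaries is accessible from the complement and visited by a large piece of
the curve, so that small neighbourhoods have three arms; this has probability `r ^ (2 / 3)` up to
constants (starting library); then coverings of `T` by small balls.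
-/

set_option autoImplicit false

namespace Pool.Agent.Results.MP_6bd702_pr.FixedSets

open H342L H342T H342P.Plain MeasureTheory Measure Filter Topology
open scoped ENNReal

/-- The unbounded component of the complement of `K`. -/
def unboundedPart (K : Set ℂ) : Set ℂ :=
  {z | z ∈ Kᶜ ∧ ¬ Bornology.IsBounded (connectedComponentIn Kᶜ z)}

/-- The union of the boundary of the unbounded component of the complement of `K` and of the
boundaries of all components of the complement, in the open unit square. -/
def boundaries (K : Set ℂ) : Set ℂ :=
  (frontier (unboundedPart K) ∪ ⋃ x : ℂ, frontier (connectedComponentIn Kᶜ x)) ∩
    {z | 0 < z.re ∧ z.re < 1 ∧ 0 < z.im ∧ z.im < 1}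

/-- **Intersections with fixed sets.** Let `C_n` be a cluster of largest Euclidean diameter (`sel`
chooses one of them, by any rule) and `γ_n` the closed lattice path tracing its outer boundary,
divided by `n` (or any other closed curve with the same trace). If the law of `γ_n` converges along
some sequence of scales then for every fixed set `T`, almost surely with respect to the limit, the
part of `T` on the boundaries of the components of the complement of the curve, in the open square,
has dimension at most `dim T - 2 / 3`, and it is empty if the Hausdorff measure of dimension `2 / 3` of
`T` is zero. -/
theorem result (sel : (n : ℕ) → Finset Edge → ℤ × ℤ)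
    (hsel : ∀ n F, 0 < n → F ⊆ edges n → Largest n F (sel n F))
    (γ : (n : ℕ) → Finset Edge → Curve)
    (hγ : ∀ n F, 0 < n → F ⊆ edges n → (γ n F).path 0 = (γ n F).path 1 ∧
      Set.range (γ n F).path = outerBoundary n F (sel n F))
    (k : ℕ → ℕ) (μ : ProbabilityMeasure Curve) (hk : Tendsto k atTop atTop)
    (hμ : Tendsto (fun i => lawOf (k i) (γ (k i))) atTop (𝓝 μ)) (T : Set ℂ) :
    ∀ᵐ c : Curve ∂(μ : Measure Curve),
      dimH (boundaries (Set.range c.path) ∩ T) ≤ dimH T - 2 / 3 ∧
        (μH[2 / 3] T = 0 → boundaries (Set.range c.path) ∩ T = ∅) :=
  Pool.Agent.V5helper90.LU.upper_fixed sel hsel γ hγ k μ hk hμ T

end Pool.Agent.Results.MP_6bd702_pr.FixedSets
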