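import Pool.Agent.V5helper99.HR.Fin
import Pool.Agent.Results.MP_6bd702_pr.LimitCurves

/-!
# The optimal Hölder exponent of the scaling limits of the outer perimeter is `4/7`

Critical bond percolation on `ℤ²` in the box `Λ_n = {0, …, n}²`. `Plain.Largest n F v` says that
the cluster of `v` has the largest Euclidean diameter among the clusters of the configuration `F`
(a set of open edges of the box). `IsTrace n F v c` says that `c` is the closed lattice path tracing
the boundary of the unbounded component of the complement of the cluster of `v`, scaled by `1 / n`.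
`Curve` is the space of curves, with the distance modulo increasing reparametrisation (so
`dist c c' = 0` says that `c'` is another parametrisation of the curve `c`), `c.path` is the
parametrisation of `c` by the unit interval, and `lawOf n f` is the law of `f F` when all sets `F` of
open edges of the box are equally likely. These definitions are those of the starting file
`Pool/Agent/Results/MP_6bd702_pr/LimitCurves.lean`, which shows that weak limits exist.

The expected number of the pieces of diameter about `a / n` into which the tracing path has to be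
cut is at most `K (n / a) ^ (7/4)`: every such piece contains a local strand of the interface, which
is surrounded by two arms. The starting files contain the two-arm bound in annuli, the expected
number of strands, and the cutting of the path.
-/

set_option autoImplicit false

namespace Pool.Agent.Results.MP_6bd702_pr.OptimalHolderExponent

open H342L H342P H342P.Plain H342T H984P MeasureTheory TopologicalSpace Filter Topology
open scoped NNReal

/-- Let `C_n` be a cluster of largest Euclidean diameter (`sel` chooses one of them, by any rule) and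
`γ_n` the closed lattice path tracing its outer boundary, divided by `n`. If the law of `γ_n`
converges along some sequence of scales, then, almost surely with respect to the limit, the optimal
Hölder exponent of the curve, over all its parametrisations, is `4/7`: for every `β > 8/7` the curve
has a parametrisation with the modulus of continuity `K x ^ (4/7) (1 + |log x|) ^ β`, which is Hölder
continuous with every exponent `α < 4/7`, and no parametrisation of the curve is Hölder continuous
with an exponent `α > 4/7`. -/
theorem result (sel : (n : ℕ) → Finset Edge → ℤ × ℤ)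
    (hsel : ∀ n F, 0 < n → F ⊆ edges n → Largest n F (sel n F))
    (γ : (n : ℕ) → Finset Edge → Curve)
    (hγ : ∀ n F, 0 < n → F ⊆ edges n → IsTrace n F (sel n F) (γ n F))
    (k : ℕ → ℕ) (hk : Tendsto k atTop atTop) (μ : ProbabilityMeasure Curve)
    (hμ : Tendsto (fun i => lawOf (k i) (γ (k i))) atTop (𝓝 μ)) :
    ∀ᵐ c : Curve ∂(μ : Measure Curve),
      (∀ β : ℝ, 8 / 7 < β → ∃ (c' : Curve) (K : ℝ), dist c c' = 0 ∧
        (∀ s t : unitInterval, dist (c'.path s) (c'.path t) ≤
          K * (dist s t ^ (4 / 7 : ℝ) * (1 + |Real.log (dist s t)|) ^ β)) ∧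
        ∀ α : ℝ≥0, α < 4 / 7 → ∃ C : ℝ≥0, HolderWith C α c'.path) ∧
      ∀ (c' : Curve) (α C : ℝ≥0), dist c c' = 0 → 4 / 7 < α → ¬ HolderWith C α c'.path := by
  obtain ⟨-, C0, hC0, hU⟩ := PerimeterExponent.inputs
  have hlim := LimitCurves.result.2 sel hsel
  have hdim := hlim.2 γ (fun n F hn hF =>
    ⟨(LimitCurves.rng n F (sel n F) (γ n F) hn hF (hsel n F hn hF).1 (hγ n F hn hF)).1,
      (LimitCurves.rng n F (sel n F) (γ n F) hn hF (hsel n F hn hF).1 (hγ n F hn hF)).2⟩) k μ hk hμ
  have hreg : ∀ᵐ c : Curve ∂(μ : Measure Curve), ∀ i : ℕ, ∃ K : ℝ,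
      c ∈ Pool.Agent.V5helper99.HR.RegC (8 / 7 * (1 + 1 / ((i : ℝ) + 1))) K := by
    rw [ae_all_iff]
    intro i
    exact Pool.Agent.V5helper99.HR.lim_reg H985T.st_A hC0 hU LimitCurves.rng (t_GRD t_POL) t_POL
      (t_SML t_POL) hsel hγ hk hμ (by
        have : (0:ℝ) < 1 / ((i : ℝ) + 1) := by positivity
        linarith)
  filter_upwards [hdim, hreg] with c hc1 hc2
  refine ⟨fun β hβ => ?_, fun c' α C hcc hα =>
    Pool.Agent.V5helper99.HR.no_holder hc1.2.1 hcc hα⟩
  obtain ⟨i, hi⟩ := exists_nat_gt (1 / (7 / 8 * β - 1))
  have hβ1 : 0 < 7 / 8 * β - 1 := by linarith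
  have hi2 : 8 / 7 * (1 + 1 / ((i : ℝ) + 1)) ≤ β := by
    have h1 : 1 / ((i : ℝ) + 1) ≤ 7 / 8 * β - 1 := by
      rw [div_le_iff₀ (by positivity)]
      rw [div_lt_iff₀ hβ1] at hi
      nlinarith
    linarith
  obtain ⟨K, f, hf, hd⟩ := hc2 i
  have hf2 : ∀ s t : unitInterval, dist (f s) (f t) ≤
      |K| * Pool.Agent.V5helper99.HR.psi β (dist s t) := by
    intro s t
    refine (hf.2 s t).trans ?_
    refine (mul_le_mul_of_nonneg_right (le_abs_self K)
      (Pool.Agent.V5helper99.HR.psi_nonneg dist_nonneg)).trans ?_
    exact mul_le_mul_of_nonneg_left (Pool.Agent.V5helper99.HR.psi_mono hi2 dist_nonneg)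
      (abs_nonneg K)
  refine ⟨⟨f⟩, |K|, hd, hf2, fun α hα =>
    Pool.Agent.V5helper99.HR.holder_of_mod (by linarith) hf2 α hα⟩

end Pool.Agent.Results.MP_6bd702_pr.OptimalHolderExponent
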