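import Pool.Agent.V5helper90.OB.Asm
import Pool.Agent.V5helper90.OB.Num
import Pool.Agent.V5helper90.OB.Touch
import Pool.Agent.V5helper90.LL.Lim
import Pool.Agent.V5helper90.LU.Main
import Pool.Agent.V5helper99.OB.Core
import Pool.Agent.V5helper72.OB.T_BOX

/-!
# The outer boundary of the scaling limits of the outer perimeter of the largest critical cluster has
# dimension `4/3` (the third claim, for all subsequential limits)

Critical bond percolation on `ℤ²` in the box `Λ_n = {0, …, n}²`. `Plain.edges n` is the set of the
edges of `Λ_n` and `Plain.Largest n F v` says that the cluster of `v` has the largest Euclidean
diameter among the clusters of the configuration `F` (a set of open edges of the box).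
`outerBoundary n F v` is the boundary of the unbounded component of the complement of the cluster of
`v` (vertices and closed edge segments), scaled by `1 / n`. `Curve` is the space of curves, with the
distance modulo increasing reparametrisation, `c.path : C(unitInterval, ℂ)` is a parametrisation of
`c`, and `lawOf n f` is the law of `f F` when all sets `F` of open edges of the box are equally likely.
These definitions are those of the starting file `Pool/Agent/Results/MP_6bd702_pr/LimitCurves.lean`
(see there), which shows that the closed lattice paths that trace the outer boundaries have weak
limits along subsequences of every sequence of scales, and that the trace of each limit has dimension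
`7 / 4` and is not self-avoiding (the second claim).

Here we prove the third claim for all these limits: almost surely the outer boundary of the limit
curve has Hausdorff dimension exactly `4 / 3`. The same holds for the union of the boundaries of all
the components of the complement, and for every set in between.

Outline. The upper bound uses the probability `r ^ (2 / 3 + o(1))` of three arms (starting library): a
point of the outer boundary is accessible from the exterior and is visited by a large piece of the
curve, so it has two open arms and a closed one. For the lower bound, in a box of size `a` one finds,
with a probability bounded below, a set `V` of about `a ^ (4 / 3)` vertices of one large cluster of the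
box, with small energy, and from each of them a thick chain of lattice points which keeps away from
this cluster and leads through a mouth to the boundary of the box (first and second moments, starting
library). The boundary of the cluster of the highest leftmost vertex `v` is explored along a
tracing strand, in dyadic windows below `v`. In each window, with a conditional probability bounded
below given the explored part, the cluster of such a box is docked to the strand, the chain is led to
the exterior, and everything else around it is separated. So the probability that all windows fail is
exponentially small in their number. As the expected number of large clusters is bounded, all large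
clusters have witnesses (`Wit`) with high probability. In the limit the thick chains show that the
limit points of `V` belong to the outer boundary, and Frostman's lemma gives the dimension.

Parts: upper bound, passage to the limit, assembly by helper90; exploration of the strand, windows,
docking and stopping sets by helper99; the event in one box by helper72; counting lemmas by helper9;
on the base of the starting files.
-/

set_option autoImplicit false

namespace Pool.Agent.Results.MP_6bd702_pr.OuterBoundaryDimension

open H342L H342T H342P.Plain MeasureTheory Filter Topology

/-- The unbounded component of the complement of `K`. -/
def unboundedPart (K : Set ℂ) : Set ℂ :=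
  {z | z ∈ Kᶜ ∧ ¬ Bornology.IsBounded (connectedComponentIn Kᶜ z)}

/-- The outer boundary of `K`: the boundary of the unbounded component of the complement of `K`. -/
def outer (K : Set ℂ) : Set ℂ := frontier (unboundedPart K)

/-- The union of the outer boundary and of the boundaries of all components of the complement. -/
def boundaries (K : Set ℂ) : Set ℂ :=
  outer K ∪ ⋃ x : ℂ, frontier (connectedComponentIn Kᶜ x)

/-- All the clusters of `Λ_n` with a large diameter have witnesses, with high probability. -/
theorem dw : Pool.Agent.V5helper90.LL.DW :=
  Pool.Agent.V5helper90.OB.t_ASM Pool.Agent.V5helper90.OB.t_TOUCH Pool.Agent.V5helper90.OB.t_NUM
    (Pool.Agent.V5helper99.OB.t_CORE Pool.Agent.V5helper72.OB.t_BOX)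

/-- **The third claim for all subsequential limits.** Let `C_n` be a cluster of largest Euclidean
diameter (`sel` chooses one of them, by any rule) and `γ_n` the closed lattice path tracing its outer
boundary, divided by `n` (or any other closed curve with the same trace). If the law of `γ_n` converges
along some sequence of scales then, almost surely with respect to the limit, the outer boundary of
the curve has Hausdorff dimension `4 / 3`, and so does every set which contains the outer boundary and
is contained in the union of the boundaries of the components of the complement. -/
theorem result (sel : (n : ℕ) → Finset Edge → ℤ × ℤ)
    (hsel : ∀ n F, 0 < n → F ⊆ edges n → Largest n F (sel n F))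
    (γ : (n : ℕ) → Finset Edge → Curve)
    (hγ : ∀ n F, 0 < n → F ⊆ edges n → (γ n F).path 0 = (γ n F).path 1 ∧
      Set.range (γ n F).path = outerBoundary n F (sel n F))
    (k : ℕ → ℕ) (μ : ProbabilityMeasure Curve) (hk : Tendsto k atTop atTop)
    (hμ : Tendsto (fun i => lawOf (k i) (γ (k i))) atTop (𝓝 μ)) :
    ∀ᵐ c : Curve ∂(μ : Measure Curve), dimH (outer (Set.range c.path)) = 4 / 3 ∧
      ∀ A : Set ℂ, outer (Set.range c.path) ⊆ A → A ⊆ boundaries (Set.range c.path) →
        dimH A = 4 / 3 := by
  filter_upwards [Pool.Agent.V5helper90.LL.eq_of_DW dw sel hsel γ hγ k μ hk hμ,
    Pool.Agent.V5helper90.LU.upper_all sel hsel γ hγ k μ hk hμ] with c h1 h2
  have h3 : dimH (outer (Set.range c.path)) = 4 / 3 := h1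
  refine ⟨h3, fun A hA1 hA2 => le_antisymm ?_ ?_⟩
  · exact (dimH_mono hA2).trans h2
  · rw [← h3]
    exact dimH_mono hA1

end Pool.Agent.Results.MP_6bd702_pr.OuterBoundaryDimension
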